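import Pool.Agent.CO30.F4Final

/-!
# Only finitely many families of Galois covers of the line satisfy the numerical criterion

A generating vector of length `r` of a finite group `G` describes an `(r - 3)`-dimensional family of
Galois covers `C → P¹` with group `G`, branched at `r` points. The criterion
`dim (S² H⁰(C, K))^G = r - 3` implies that the family gives a special subvariety of `A_g` contained
in the Torelli locus. By the theorem, for curves of genus at least `2` it is satisfied for only finitely
many data.
-/

namespace Pool.Agent.Results.MP_7f2cd4_ag.Finiteness

open Pool.Agent.CO75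

theorem result :
    ∃ B : ℕ, ∀ (G : Type) [Group G] [Fintype G] (r : ℕ) (x : Fin r → G),
      4 ≤ r → IsGenVec x → 1 < genus x → numN x = (r : ℂ) - 3 →
        Fintype.card G ≤ B ∧ r ≤ B ∧ genus x ≤ B :=
  Pool.Agent.CO30.finiteness

end Pool.Agent.Results.MP_7f2cd4_ag.Finiteness
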