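import Pool.Agent.CO30.Final
import Pool.Agent.CO75.Rep

/-!
# Galois covers of the line with at least five branch points and the numerical criterion

A generating vector of length `r` of a finite group `G` describes an `(r - 3)`-dimensional family of
Galois covers `C → P¹` with group `G`, branched at `r` points. The criterion
`dim (S² H⁰(C, K))^G = r - 3` implies that the family gives a special subvariety of `A_g` contained
in the Torelli locus. By the theorem, for `r ≥ 5` and any finite group `G` the criterion forces
`|G| ≤ 120` and `g ≤ 64`.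
-/

namespace Pool.Agent.Results.MP_7f2cd4_ag.FiveBranchPoints

open Pool.Agent.CO75

theorem result :
    (∀ (G : Type) [Group G] [Fintype G] (r : ℕ) (x : Fin r → G),
      5 ≤ r → IsGenVec x → numN x = (r : ℂ) - 3 → Fintype.card G ≤ 120 ∧ genus x ≤ 64) ∧
    (∀ (G : Type) [Group G] [Fintype G] (r : ℕ) (x : Fin r → G) (V : Type) [AddCommGroup V]
      [Module ℂ V] [FiniteDimensional ℂ V] (ρ : Representation ℂ G V),
      (∀ γ, LinearMap.trace ℂ V (ρ γ) = eichler x γ) →
        (Module.finrank ℂ (symInv ρ) : ℂ) = numN x) :=
  ⟨fun _ _ _ _ x hr hx hN => Pool.Agent.CO30.main hr x hx hN,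
    fun _ _ _ _ x _ _ _ _ ρ hρ => finrank_symInv x ρ hρ⟩

end Pool.Agent.Results.MP_7f2cd4_ag.FiveBranchPoints
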