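import Pool.Agent.CO75.FinalOver
import Pool.Agent.CO75.RepOver

/-!
# Galois covers with a group of odd order and the numerical criterion

A generating vector of type `(h; r)` of a finite group `G` describes a family of Galois covers
`C → C'` with group `G` of curves of genus `h`, branched at `r` points, of dimension `3 h - 3 + r` if this
is at least `1`. The criterion `dim (S² H⁰(C, K))^G = 3 h - 3 + r` implies that the family gives a
special subvariety of `A_g` contained in the Torelli locus. By the theorem, for `G` of odd order the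
criterion forces `G` to be commutative and `g ≤ 7`, and `g = 7` occurs.
-/

namespace Pool.Agent.Results.MP_7f2cd4_ag.OddOrder

open Pool.Agent.CO75

theorem result :
    (∀ (G : Type) [Group G] [Fintype G] (h r : ℕ) (a b : Fin h → G) (x : Fin r → G),
      Odd (Fintype.card G) → IsGenData h a b x → 1 ≤ 3 * (h : ℤ) - 3 + r →
      numOver h x = 3 * (h : ℂ) - 3 + r → (∀ y z : G, y * z = z * y) ∧ genusOver h x ≤ 7) ∧
    (∃ (a b : Fin 0 → Multiplicative (ZMod 9)) (x : Fin 4 → Multiplicative (ZMod 9)),
      IsGenData 0 a b x ∧ numOver 0 x = 1 ∧ genusOver 0 x = 7) ∧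
    (∀ (G : Type) [Group G] [Fintype G] (h r : ℕ) (x : Fin r → G) (V : Type) [AddCommGroup V]
      [Module ℂ V] [FiniteDimensional ℂ V] (ρ : Representation ℂ G V),
      (∀ γ, LinearMap.trace ℂ V (ρ γ) = eichlerOver h x γ) →
        (Module.finrank ℂ (symInv ρ) : ℂ) = numOver h x) := by
  refine ⟨fun G _ _ h r a b x hodd hx hr hN => main_over hodd a b x hx (by omega) hN, ?_,
    fun _ _ _ h _ x _ _ _ _ ρ hρ => finrank_symInv_over h x ρ hρ⟩
  obtain ⟨x, hx, hN, hg⟩ := sharp
  refine ⟨fun i => i.elim0, fun i => i.elim0, x, ⟨hx.ne_one, ?_, ?_⟩, ?_, ?_⟩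
  · simpa using hx.prod_eq
  · rw [Set.range_eq_empty (fun i : Fin 0 => i.elim0), Set.empty_union, Set.empty_union]
    exact hx.gen
  · rw [numOver_eq (by decide) 0 x, hN]
    push_cast
    ring
  · rw [genusOver_eq, hg]
    push_cast
    ring

end Pool.Agent.Results.MP_7f2cd4_ag.OddOrder
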